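import Mathlib
import Pool.Agent.Y928.PL.Finite
import Pool.Agent.TH817.Z3.Z
import Pool.Agent.TH250.Z3.Arch

/-!
# The digits of `ζ(3)`

The linear complexity of the first `L` digits of a number `x` in base `b` is the least order of a
linear recurrence over `ℚ` which they satisfy; it is bounded for rational `x`, at least `(1/2 - ε) L` for
irrational algebraic `x` (by Roth's theorem), and about `L / 2` for random digits. Here it is shown that
it is at least `(1/4.68 - ε) L` for `ζ(3)`, in every base, with an error term which does not depend on the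
base, also after changes of digits in `k` places (with a smaller constant), and for all representations
by bounded integer digits. The measure of irrationality of `ζ(3)` is the theorem
`Pool/Agent/Results/MP_48b3e2_nt/ZetaThreeExponentC.lean`, the treatment of digit sequences is in
`Pool/Agent/Y928/`.
-/

set_option autoImplicit false

namespace Pool.Agent.Results.MP_48b3e2_nt.DigitComplexity

open Finset

/-- the `i`-th digit of `x` after the point in base `b` -/
noncomputable def digit (b : ℕ) (x : ℝ) (i : ℕ) : ℤ := ⌊x * (b : ℝ) ^ i⌋ % (b : ℤ)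

/-- The terms `s_1, …, s_L` satisfy the linear recurrence
`s_(i+m) = c_0 s_i + … + c_(m-1) s_(i+m-1)` for `1 ≤ i ≤ L - m`. -/
def Recurrence (s : ℕ → ℤ) (c : ℕ → ℚ) (L m : ℕ) : Prop :=
  ∀ i : ℕ, 1 ≤ i → i + m ≤ L → (s (i + m) : ℚ) = ∑ j ∈ range m, c j * (s (i + j) : ℚ)

/-- the linear complexity of `s_1, …, s_L` -/
noncomputable def complexity (s : ℕ → ℤ) (L : ℕ) : ℕ :=
  sInf {m | ∃ c : ℕ → ℚ, Recurrence s c L m}

/-- the `k`-error linear complexity of the first `L` digits of `x` in base `b`: the least order of a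
recurrence for the first `L` terms of a sequence of integers between `-b` and `b` which agrees with
the digits of `x` in all but at most `k` of the places `1, …, L` -/
noncomputable def errorComplexity (b : ℕ) (x : ℝ) (k L : ℕ) : ℕ :=
  sInf {m | ∃ (s : ℕ → ℤ) (c : ℕ → ℚ) (E : Finset ℕ), E.card ≤ k ∧ (∀ l, |s l| ≤ b) ∧
    (∀ l ∈ Icc 1 L, l ∉ E → s l = digit b x l) ∧ Recurrence s c L m}

/-- the function `m + C √((m+1) log (m+2))` -/
noncomputable def F (C : ℝ) (m : ℕ) : ℝ :=
  m + C * Real.sqrt (((m : ℝ) + 1) * Real.log ((m : ℝ) + 2))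

/-- `ζ(3) = ∑ 1/(n+1)^3` -/
noncomputable def zeta : ℝ := ∑' n : ℕ, 1 / ((n : ℝ) + 1) ^ 3

/-- **The digits of `ζ(3)`.** There is an absolute constant `C` such that in every base `b ≥ 2`, for
all `k` and `L`, the `k`-error linear complexity `N` of the first `L` digits of `ζ(3)` satisfies
`L ≤ (μ + μ ^ 2 + … + μ ^ (k + 1)) (N + C √((N+1) log (N+2)))`, `μ = 4.68`. For every `h` there is `C`
such that for every representation `ζ(3) - n = ∑ s_i b ^ (-i)` by integers `|s_i| ≤ b ^ h` the linear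
complexity `N` of `s_1, …, s_L` satisfies `L ≤ (1 + μ) (N + C √((N+1) log (N+2)))`. -/
theorem result :
    (∃ C : ℝ, 0 < C ∧ ∀ b : ℕ, 2 ≤ b → ∀ k L : ℕ,
      (L : ℝ) ≤ (∑ i ∈ range (k + 1), (4.68 : ℝ) ^ (i + 1)) * F C (errorComplexity b zeta k L)) ∧
    ∀ h : ℕ, ∃ C : ℝ, 0 < C ∧ ∀ b : ℕ, 2 ≤ b → ∀ s : ℕ → ℤ, (∀ i, |s i| ≤ ((b ^ h : ℕ) : ℤ)) →
      (∃ n : ℤ, HasSum (fun i : ℕ => (s (i + 1) : ℝ) / (b : ℝ) ^ (i + 1)) (zeta - n)) →
      ∀ L : ℕ, (L : ℝ) ≤ (1 + 4.68) * F C (complexity s L) := by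
  obtain ⟨c, hc, hmeas⟩ := Pool.Agent.TH817.Z3.Z_pre Pool.Agent.TH250.Z3.AM
  have key := fun h : ℕ => Pool.Agent.Y928.PL.finite_family {3} ⟨3, by decide⟩ (fun _ => zeta) 4.68 c
      (by norm_num) hc (by
        intro q hq p
        refine ⟨3, by simp, ?_⟩
        have h1 := hmeas (p 3) q hq
        have hq0 : (0 : ℝ) < q := by exact_mod_cast hq
        have e1 : (q : ℝ) ^ ((468 : ℝ) / 100) = (q : ℝ) ^ ((4.68 : ℝ) - 1) * q := by
          nth_rewrite 3 [← Real.rpow_one (q : ℝ)]
          rw [← Real.rpow_add hq0]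
          norm_num
        have e2 : |(q : ℝ) * zeta - p 3| = q * |zeta - (p 3 : ℝ) / q| := by
          rw [← abs_of_pos hq0, ← abs_mul, abs_of_pos hq0]
          congr 1
          field_simp
        have h2 : c / (q : ℝ) ^ ((468 : ℝ) / 100) ≤ |zeta - (p 3 : ℝ) / q| := h1
        rw [div_le_iff₀ (by positivity)] at h2
        rw [e2]
        calc c ≤ |zeta - (p 3 : ℝ) / q| * (q : ℝ) ^ ((468 : ℝ) / 100) := h2
          _ = (q : ℝ) ^ ((4.68 : ℝ) - 1) * (q * |zeta - (p 3 : ℝ) / q|) := by rw [e1]; ring) h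
  refine ⟨?_, fun h => ?_⟩
  · obtain ⟨C, hC, h1, -⟩ := key 0
    refine ⟨C, hC, fun b hb k L => ?_⟩
    have h2 := h1 b hb k L
    have e : Pool.Agent.Y928.JL.Fam.jointComplexity b {3} (fun _ => zeta) k L = errorComplexity b zeta k L := by
      unfold Pool.Agent.Y928.JL.Fam.jointComplexity errorComplexity
      congr 1
      ext m
      constructor
      · rintro ⟨s, c, E, hE, hs⟩
        obtain ⟨a1, a2, a3⟩ := hs 3 (by simp)
        exact ⟨s 3, c, E, hE, a1, a2, a3⟩
      · rintro ⟨s, c, E, hE, a1, a2, a3⟩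
        exact ⟨fun _ => s, c, E, hE, fun i _ => ⟨a1, a2, a3⟩⟩
    rw [e] at h2
    exact h2
  · obtain ⟨C, hC, -, h1⟩ := key h
    refine ⟨C, hC, fun b hb s hs hsum L => ?_⟩
    obtain ⟨j, hj, h2⟩ := h1 (fun _ => b) (fun _ _ => hb) (fun _ => s) (fun _ _ => hs)
      (fun _ _ => hsum) (fun _ => L)
    rw [Finset.sum_singleton] at h2
    have hlog : 0 < Real.log b := Real.log_pos (by exact_mod_cast (by omega : 1 < b))
    have e : F C (complexity s L) * Real.log b + 4.68 * (F C (complexity s L) * Real.log b) =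
        ((1 + 4.68) * F C (complexity s L)) * Real.log b := by ring
    have h3 : (L : ℝ) * Real.log b ≤ ((1 + 4.68) * F C (complexity s L)) * Real.log b := by
      rw [← e]
      exact h2
    exact le_of_mul_le_mul_right h3 hlog

end Pool.Agent.Results.MP_48b3e2_nt.DigitComplexity
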