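import Mathlib
import Pool.Agent.Q29.DigDir
import Pool.Agent.TH647.NR.Zeta34
import Pool.Agent.TH817.Z3.Z
import Pool.Agent.TH250.Z3.Arch

/-!
# The digits of the values of polynomials at `ζ(3)`

If `ζ(3)` is algebraic, then for some nonconstant integer polynomial `P` the number `P(ζ(3))` is rational, and the
linear complexity of its digits (the least order of a linear recurrence which the first `L` digits satisfy) is
bounded in every base. We show that at each scale the polynomials `P` of degree at most `m + 1` with `P(0) = 0`, of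
heights up to a power of the scale, such that `P(ζ(3))` has digits of small linear complexity in at least one base,
are contained in a proper subspace. More generally, let `t_1, …, t_r` be arbitrary real numbers (for instance powers
of `ζ(3)` or other zeta values) and consider the numbers `x = b ζ(3) + e_1 t_1 + … + e_r t_r`, with integers
`b, e_j` of absolute value at most `M`. For `r + 1` linearly independent vectors `(b, e_1, …, e_r)` and any bases
`g_0, …, g_r`, equal or different, let `N_k` be the linear complexity of the first `L_k` digits of the `k`-th number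
in base `g_k`. Then, up to error terms of the order of `√(N log N)`,

`min_k L_k log g_k ≤ 4.68 (∑_k N_k log g_k + (r + 1) log M)`,

with constants which do not depend on `t_1, …, t_r`, `M` and the bases. (For `r = 0` and `M = 1` this is the lower
bound `L / 4.68` for the linear complexity of the first `L` digits of `ζ(3)`.)

The proof uses the irrationality exponent `4.68` of `ζ(3)`, the product inequality for near relations
(`Pool/Agent/TH550/NRZ/Elim.lean`) and the approximations given by a short recurrence, uniformly in the base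
(`Pool/Agent/Y928/PL/Mixed.lean`).
-/

set_option autoImplicit false

namespace Pool.Agent.Results.MP_48b3e2_nt.DigitsOfCombinations

open Finset

/-- the `i`-th digit of `x` after the point in base `g` -/
noncomputable def digit (g : ℕ) (x : ℝ) (i : ℕ) : ℤ := ⌊x * (g : ℝ) ^ i⌋ % (g : ℤ)

/-- the linear complexity of the first `L` digits of `x` in base `g`: the least `m` such that for some
rational numbers `c_0, …, c_(m-1)` one has `s_(i+m) = c_0 s_i + … + c_(m-1) s_(i+m-1)` for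
`1 ≤ i ≤ L - m`, where `s_i` is the `i`-th digit -/
noncomputable def complexity (g : ℕ) (x : ℝ) (L : ℕ) : ℕ :=
  sInf {m | ∃ c : ℕ → ℚ, ∀ i : ℕ, 1 ≤ i → i + m ≤ L →
    (digit g x (i + m) : ℚ) = ∑ j ∈ range m, c j * (digit g x (i + j) : ℚ)}

/-- the function `m + C √((m+1) log (m+2))` -/
noncomputable def F (C : ℝ) (m : ℕ) : ℝ :=
  m + C * Real.sqrt (((m : ℝ) + 1) * Real.log ((m : ℝ) + 2))

/-- `ζ(3) = ∑ 1 / n³` -/
noncomputable def zeta3 : ℝ := ∑' n : ℕ, 1 / ((n : ℝ) + 1) ^ 3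

/-- the measure for `1, ζ(3)` -/
theorem meas : ∃ c : ℝ, 0 < c ∧ Pool.Agent.W472.AC.Meas
    (Fin.cons 1 fun _ : Fin 1 => zeta3 : Fin (1 + 1) → ℝ) (368 / 100) c := by
  obtain ⟨c, hc, h⟩ := Pool.Agent.TH817.Z3.Z_pre Pool.Agent.TH250.Z3.AM
  have h1 := Pool.Agent.TH647.NR.meas_of_exp (∑' n : ℕ, 1 / ((n : ℝ) + 1) ^ 3) (468 / 100) (by norm_num) c hc
    (fun p q hq => h p q hq)
  refine ⟨min c 1, by positivity, ?_⟩
  have e : (Fin.cons 1 fun _ : Fin 1 => zeta3 : Fin (1 + 1) → ℝ) = ![1, ∑' n : ℕ, 1 / ((n : ℝ) + 1) ^ 3] := by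
    funext i
    fin_cases i <;> rfl
  rw [e]
  convert h1 using 1
  norm_num

theorem part1 (r : ℕ) : ∃ C : ℝ, 0 < C ∧ ∀ (t : Fin r → ℝ) (b : Fin (r + 1) → ℤ) (e : Fin (r + 1) → Fin r → ℤ),
      LinearIndependent ℤ (fun k => (b k, e k)) → ∀ M : ℝ, 1 ≤ M → (∀ k, |(b k : ℝ)| ≤ M) →
      (∀ k j, |(e k j : ℝ)| ≤ M) → ∀ g : Fin (r + 1) → ℕ, (∀ k, 2 ≤ g k) → ∀ (L : Fin (r + 1) → ℕ) (Λ : ℝ),
      (∀ k, Λ ≤ L k * Real.log (g k)) →
        Λ ≤ 4.68 * (∑ k, F C (complexity (g k) (b k * zeta3 + ∑ j, (e k j : ℝ) * t j) (L k)) *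
          Real.log (g k) + (r + 1) * Real.log M) := by
  obtain ⟨c, hc, hm⟩ := meas
  obtain ⟨C, hC, h⟩ := Pool.Agent.Q29.DD.prod_digits (fun _ : Fin 1 => zeta3) (368 / 100) c (by norm_num) hc hm r
  refine ⟨C, hC, fun t b e hli M hM hb he g hg L Λ hΛ => ?_⟩
  have h1 := h t (fun k _ => b k) e ?_ M hM (fun k _ => hb k) he g hg L Λ hΛ
  · refine h1.trans (le_of_eq ?_)
    have e1 : ∀ k, (∑ j : Fin 1, (b k : ℝ) * zeta3) + ∑ j, (e k j : ℝ) * t j =
        b k * zeta3 + ∑ j, (e k j : ℝ) * t j := by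
      intro k
      rw [Fin.sum_univ_one]
    simp only [e1]
    have e2 : ∀ k, Pool.Agent.Q29.DD.F C (Pool.Agent.Q29.DD.complexity (g k)
        (b k * zeta3 + ∑ j, (e k j : ℝ) * t j) (L k)) =
        F C (complexity (g k) (b k * zeta3 + ∑ j, (e k j : ℝ) * t j) (L k)) := fun k => rfl
    simp only [e2]
    ring
  · rw [Fintype.linearIndependent_iff] at hli ⊢
    intro c' hc'
    refine hli c' ?_
    rw [Prod.ext_iff] at hc' ⊢
    obtain ⟨h1, h2⟩ := hc'
    rw [Prod.fst_sum] at h1 ⊢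
    rw [Prod.snd_sum] at h2 ⊢
    refine ⟨?_, h2⟩
    have h3 := congrFun h1 0
    rw [Finset.sum_apply] at h3
    exact h3

theorem part2 (r : ℕ) (ε : ℝ) (hε : 0 < ε) : ∃ δ : ℝ, 0 < δ ∧ ∀ (Λ : ℝ), 1 ≤ Λ → ∀ (t : Fin r → ℝ)
      (b : Fin (r + 1) → ℤ) (e : Fin (r + 1) → Fin r → ℤ), LinearIndependent ℤ (fun k => (b k, e k)) →
      (∀ k, |(b k : ℝ)| ≤ Real.exp (δ * Λ)) → (∀ k j, |(e k j : ℝ)| ≤ Real.exp (δ * Λ)) →
      ∀ g : Fin (r + 1) → ℕ, (∀ k, 2 ≤ g k) → (∀ k, (g k : ℝ) ≤ Real.exp (δ * Λ)) →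
        ∃ k, (1 / (4.68 * (r + 1)) - ε) * (Λ / Real.log (g k)) ≤
          complexity (g k) (b k * zeta3 + ∑ j, (e k j : ℝ) * t j) ⌊Λ / Real.log (g k)⌋₊ := by
  obtain ⟨C, hC, h⟩ := part1 r
  have hr0 : (0 : ℝ) ≤ r := Nat.cast_nonneg _
  obtain ⟨δ, hδ, h'⟩ := Pool.Agent.Q29.DD.scale (n := r + 1) (4.68 * (r + 1)) C (4.68 * (r + 1)) ε
    (by nlinarith) hC (by positivity) hε
  refine ⟨δ, hδ, fun Λ hΛ t b e hli hb he g hg hgL => ?_⟩
  refine h' Λ hΛ (fun k => b k * zeta3 + ∑ j, (e k j : ℝ) * t j) g hg hgL ?_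
  intro L a Λ' hΛ' ha
  have h1 := h t b e hli (Real.exp (δ * Λ)) (Real.one_le_exp (by positivity)) hb he g hg L Λ' hΛ'
  refine h1.trans ?_
  rw [Real.log_exp]
  have h2 : ∑ k, F C (complexity (g k) (b k * zeta3 + ∑ j, (e k j : ℝ) * t j) (L k)) * Real.log (g k) ≤
      ((r : ℝ) + 1) * a := by
    calc _ ≤ ∑ _k : Fin (r + 1), a := Finset.sum_le_sum fun k _ => ha k
      _ = _ := by
        rw [Finset.sum_const, Finset.card_univ, Fintype.card_fin, nsmul_eq_mul]
        push_cast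
        ring
  nlinarith

/-- the value of a polynomial of degree at most `m + 1` -/
theorem aeval_split (m : ℕ) (z : ℝ) (P : Polynomial ℤ) (h : P.natDegree ≤ m + 1) (h0 : P.coeff 0 = 0) :
    Polynomial.aeval z P = (P.coeff 1 : ℝ) * z +
      ∑ j : Fin m, (P.coeff ((j : ℕ) + 2) : ℝ) * z ^ ((j : ℕ) + 2) := by
  have h1 : Polynomial.aeval z P = ∑ i ∈ Finset.range (m + 2), (P.coeff i : ℝ) * z ^ i := by
    rw [Polynomial.aeval_eq_sum_range' (show P.natDegree < m + 2 by omega)]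
    exact Finset.sum_congr rfl fun i _ => by rw [zsmul_eq_mul]
  rw [h1, Finset.sum_range_succ', Finset.sum_range_succ', Finset.sum_range]
  have h2 : ∑ j : Fin m, (P.coeff ((j : ℕ) + 2) : ℝ) * z ^ ((j : ℕ) + 2) =
      ∑ j : Fin m, (P.coeff ((j : ℕ) + 1 + 1) : ℝ) * z ^ ((j : ℕ) + 1 + 1) := rfl
  rw [h2, pow_zero, mul_one, zero_add, pow_one, h0]
  push_cast
  ring

theorem part3 (m : ℕ) (ε : ℝ) (hε : 0 < ε) : ∃ δ : ℝ, 0 < δ ∧ ∀ (Λ : ℝ), 1 ≤ Λ →
      ∀ P : Fin (m + 1) → Polynomial ℤ, LinearIndependent ℤ P → (∀ k, (P k).coeff 0 = 0) →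
      (∀ k, (P k).natDegree ≤ m + 1) → (∀ k i, |((P k).coeff i : ℝ)| ≤ Real.exp (δ * Λ)) →
      ∀ g : Fin (m + 1) → ℕ, (∀ k, 2 ≤ g k) → (∀ k, (g k : ℝ) ≤ Real.exp (δ * Λ)) →
        ∃ k, (1 / (4.68 * (m + 1)) - ε) * (Λ / Real.log (g k)) ≤
          complexity (g k) (Polynomial.aeval zeta3 (P k)) ⌊Λ / Real.log (g k)⌋₊ := by
  obtain ⟨δ, hδ, h⟩ := part2 m ε hε
  refine ⟨δ, hδ, fun Λ hΛ P hP h0 hdeg hcoe g hg hgL => ?_⟩
  have h1 := h Λ hΛ (fun j => zeta3 ^ ((j : ℕ) + 2)) (fun k => (P k).coeff 1)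
    (fun k j => (P k).coeff ((j : ℕ) + 2)) ?_ (fun k => hcoe k _) (fun k j => hcoe k _) g hg hgL
  · obtain ⟨k, hk⟩ := h1
    refine ⟨k, ?_⟩
    rw [aeval_split m zeta3 (P k) (hdeg k) (h0 k)]
    exact hk
  · rw [Fintype.linearIndependent_iff] at hP ⊢
    intro c hc
    refine hP c ?_
    have hcoe : ∀ i : ℕ, ∑ k, c k * (P k).coeff i = 0 := by
      intro i
      rcases Nat.lt_or_ge i 2 with h2 | h2
      · interval_cases i
        · simp [h0]
        · have h3 := congrArg Prod.fst hc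
          rw [Prod.fst_sum] at h3
          simpa using h3
      · rcases lt_or_ge i (m + 2) with h4 | h4
        · have h3 := congrFun (congrArg Prod.snd hc) ⟨i - 2, by omega⟩
          rw [Prod.snd_sum, Finset.sum_apply] at h3
          have h5 : i - 2 + 2 = i := by omega
          simp only [Prod.smul_snd, Pi.smul_apply, smul_eq_mul, h5, Prod.snd_zero, Pi.zero_apply] at h3
          exact h3
        · refine Finset.sum_eq_zero fun k _ => ?_
          rw [Polynomial.coeff_eq_zero_of_natDegree_lt (by have := hdeg k; omega), mul_zero]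
    ext i
    simpa [Polynomial.finsetSum_coeff] using hcoe i

/-- **The digits of the linear combinations of `ζ(3)` and arbitrary numbers, and of the values of polynomials at
`ζ(3)`.** (1) For each `r` there is `C` such that for all real `t_1, …, t_r`, all `r + 1` linearly independent integer
vectors `(b_k, e_k)` of height at most `M`, all bases `g_k`, all `L_k` and all `Λ ≤ min L_k log g_k`:
`Λ ≤ 4.68 (∑ F(N_k) log g_k + (r + 1) log M)`, where `N_k` is the linear complexity of the first `L_k` digits of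
`b_k ζ(3) + ∑ e_kj t_j` in base `g_k`. (2) For `ε > 0` there is `δ > 0` such that for all `Λ ≥ 1`, all `t`, all such
vectors of height at most `e^(δ Λ)` and all bases `g_k ≤ e^(δ Λ)` at least one of the complexities of the first
`⌊Λ / log g_k⌋` digits is at least `(1 / (4.68 (r + 1)) - ε) Λ / log g_k`. (3) The same for the values at `ζ(3)` of
`m + 1` linearly independent integer polynomials of degree at most `m + 1` without constant term. -/
theorem result :
    (∀ r : ℕ, ∃ C : ℝ, 0 < C ∧ ∀ (t : Fin r → ℝ) (b : Fin (r + 1) → ℤ) (e : Fin (r + 1) → Fin r → ℤ),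
      LinearIndependent ℤ (fun k => (b k, e k)) → ∀ M : ℝ, 1 ≤ M → (∀ k, |(b k : ℝ)| ≤ M) →
      (∀ k j, |(e k j : ℝ)| ≤ M) → ∀ g : Fin (r + 1) → ℕ, (∀ k, 2 ≤ g k) → ∀ (L : Fin (r + 1) → ℕ) (Λ : ℝ),
      (∀ k, Λ ≤ L k * Real.log (g k)) →
        Λ ≤ 4.68 * (∑ k, F C (complexity (g k) (b k * zeta3 + ∑ j, (e k j : ℝ) * t j) (L k)) *
          Real.log (g k) + (r + 1) * Real.log M)) ∧
    (∀ (r : ℕ) (ε : ℝ), 0 < ε → ∃ δ : ℝ, 0 < δ ∧ ∀ (Λ : ℝ), 1 ≤ Λ → ∀ (t : Fin r → ℝ)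
      (b : Fin (r + 1) → ℤ) (e : Fin (r + 1) → Fin r → ℤ), LinearIndependent ℤ (fun k => (b k, e k)) →
      (∀ k, |(b k : ℝ)| ≤ Real.exp (δ * Λ)) → (∀ k j, |(e k j : ℝ)| ≤ Real.exp (δ * Λ)) →
      ∀ g : Fin (r + 1) → ℕ, (∀ k, 2 ≤ g k) → (∀ k, (g k : ℝ) ≤ Real.exp (δ * Λ)) →
        ∃ k, (1 / (4.68 * (r + 1)) - ε) * (Λ / Real.log (g k)) ≤
          complexity (g k) (b k * zeta3 + ∑ j, (e k j : ℝ) * t j) ⌊Λ / Real.log (g k)⌋₊) ∧
    (∀ (m : ℕ) (ε : ℝ), 0 < ε → ∃ δ : ℝ, 0 < δ ∧ ∀ (Λ : ℝ), 1 ≤ Λ →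
      ∀ P : Fin (m + 1) → Polynomial ℤ, LinearIndependent ℤ P → (∀ k, (P k).coeff 0 = 0) →
      (∀ k, (P k).natDegree ≤ m + 1) → (∀ k i, |((P k).coeff i : ℝ)| ≤ Real.exp (δ * Λ)) →
      ∀ g : Fin (m + 1) → ℕ, (∀ k, 2 ≤ g k) → (∀ k, (g k : ℝ) ≤ Real.exp (δ * Λ)) →
        ∃ k, (1 / (4.68 * (m + 1)) - ε) * (Λ / Real.log (g k)) ≤
          complexity (g k) (Polynomial.aeval zeta3 (P k)) ⌊Λ / Real.log (g k)⌋₊) :=
  ⟨part1, part2, part3⟩

end Pool.Agent.Results.MP_48b3e2_nt.DigitsOfCombinations
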