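import Mathlib
import Pool.Agent.Q29.EqMeas
import Pool.Agent.TH647.NR.Zeta34
import Pool.Agent.TH817.Z3.Z
import Pool.Agent.TH250.Z3.Arch

/-!
# Uniform distribution of the multiples of the values of polynomials at `ζ(3)`

If `ζ(3)` is algebraic of degree at most `d`, then there is an integer polynomial `P`, nonconstant, of degree at most `d`
such that `P(ζ(3)) = 0`, and the multiples of `P(ζ(3))` by the integers up to `M`, by their powers or by the primes up to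
`M` are not uniformly distributed modulo one at any scale `M`. We show that at each scale the polynomials with this defect
satisfy a common linear equation: for all `d ≥ 1`, `K` and `A ≥ 1` there are `κ > 0` and `N₀` such that for every `N ≥ N₀`
there are rational numbers `u_1, …, u_d`, not all zero, such that for all integer polynomials `P = a_0 + a_1 x + … + a_d x ^ d`
of height at most `N ^ κ` with `u_1 a_1 + … + u_d a_d ≠ 0` and for all `M` from `N` to `N ^ A`, the multiples of `P(ζ(3))` by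
the integers up to `M`, by their `k`-th powers for `k ≤ K` (even with a real polynomial of degree less than `k` added), and
by the primes up to `M` in each residue class modulo `d' ≤ M ^ κ`, are uniformly distributed modulo one with an error
`M ^ (1 - κ)`. More generally this holds for the numbers `b ζ(3) + e_1 t_1 + … + e_r t_r`, where `t_1, …, t_r` are any real
numbers (for instance powers of `ζ(3)`, or other zeta values); the constants `κ` and `N₀` do not depend on the numbers `t_j`.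
(For `r = 0`: the multiples of `ζ(3)` itself are uniformly distributed along the primes with a power saving.)

The proof uses the irrationality exponent `4.68` of `ζ(3)` (`Pool/Agent/TH817`, `TH250`), elimination
(`Pool/Agent/TH647/NR/`), an inverse theorem for the sums of Weyl and a form of the estimate of Vinogradov for the sums over
primes with a power saving from the starting files (`H373R2/NB`, `W110/HV`).
-/

set_option autoImplicit false

namespace Pool.Agent.Results.MP_48b3e2_nt.MultiplesOfPolynomials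

open Finset Polynomial

/-- The multiples of `x` are uniformly distributed at the scale `M`, with a power saving, along all polynomials of degree
at most `K` and along the primes of all residue classes:

* for every nonzero integer `b` with `|b| ≤ M ^ κ`, every `1 ≤ k ≤ K` and every real polynomial `R` of degree less than
  `k`, the number of `0 ≤ n < M` with the fractional part of `b x n ^ k + R(n)` in `[u, v)` is `(v - u) M` up to
  `M ^ (1 - κ)`, for all `0 ≤ u ≤ v ≤ 1`;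
* for every such `b`, every `1 ≤ d ≤ M ^ κ`, every `r` and every real `β`, the number of primes `p ≤ M` with
  `p ≡ r (mod d)` and the fractional part of `b x p + β` in `[u, v)` is `(v - u)` times the number of all the primes
  `p ≤ M` with `p ≡ r (mod d)`, up to `M ^ (1 - κ)`. -/
def Good (κ : ℝ) (K M : ℕ) (x : ℝ) : Prop :=
  (∀ b : ℤ, b ≠ 0 → |(b : ℝ)| ≤ (M : ℝ) ^ κ → ∀ k : ℕ, 1 ≤ k → k ≤ K → ∀ R : ℝ[X], R.degree < k →
    ∀ u v : ℝ, 0 ≤ u → u ≤ v → v ≤ 1 →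
      |(((range M).filter fun n : ℕ => u ≤ Int.fract (b * x * (n : ℝ) ^ k + R.eval (n : ℝ)) ∧
          Int.fract (b * x * (n : ℝ) ^ k + R.eval (n : ℝ)) < v).card : ℝ) - (v - u) * M| ≤
        (M : ℝ) ^ (1 - κ)) ∧
  (∀ b : ℤ, b ≠ 0 → |(b : ℝ)| ≤ (M : ℝ) ^ κ → ∀ d r : ℕ, 1 ≤ d → (d : ℝ) ≤ (M : ℝ) ^ κ → ∀ β : ℝ,
    ∀ u v : ℝ, 0 ≤ u → u ≤ v → v ≤ 1 →
      |(((range (M + 1)).filter fun p : ℕ => (p.Prime ∧ p ≡ r [MOD d]) ∧
          (u ≤ Int.fract (b * x * p + β) ∧ Int.fract (b * x * p + β) < v)).card : ℝ) -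
        (v - u) * ((range (M + 1)).filter fun p : ℕ => p.Prime ∧ p ≡ r [MOD d]).card| ≤
        (M : ℝ) ^ (1 - κ))

/-- `ζ(3) = ∑ 1 / n³` -/
noncomputable def zeta3 : ℝ := ∑' n : ℕ, 1 / ((n : ℝ) + 1) ^ 3

theorem good_iff (κ : ℝ) (K M : ℕ) (x : ℝ) : Good κ K M x ↔ Pool.Agent.Q29.Eqd.Good κ K M x := Iff.rfl

/-- integer translations -/
theorem good_add (κ : ℝ) (K M : ℕ) (x : ℝ) (c : ℤ) (h : Good κ K M x) : Good κ K M (c + x) := by
  constructor
  · intro b hb hbM k hk hkK R hR u v hu huv hv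
    have h1 := h.1 b hb hbM k hk hkK R hR u v hu huv hv
    have e1 : ∀ n : ℕ, Int.fract (b * (c + x) * (n : ℝ) ^ k + R.eval (n : ℝ)) =
        Int.fract (b * x * (n : ℝ) ^ k + R.eval (n : ℝ)) := by
      intro n
      have : (b : ℝ) * (c + x) * (n : ℝ) ^ k + R.eval (n : ℝ) =
          ((b * c * (n : ℤ) ^ k : ℤ) : ℝ) + (b * x * (n : ℝ) ^ k + R.eval (n : ℝ)) := by
        push_cast
        ring
      rw [this, Int.fract_intCast_add]
    simp only [e1]
    exact h1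
  · intro b hb hbM d r hd hdM β u v hu huv hv
    have h1 := h.2 b hb hbM d r hd hdM β u v hu huv hv
    have e1 : ∀ n : ℕ, Int.fract (b * (c + x) * (n : ℝ) + β) = Int.fract (b * x * (n : ℝ) + β) := by
      intro n
      have : (b : ℝ) * (c + x) * (n : ℝ) + β = ((b * c * (n : ℤ) : ℤ) : ℝ) + (b * x * (n : ℝ) + β) := by
        push_cast
        ring
      rw [this, Int.fract_intCast_add]
    simp only [e1]
    exact h1

/-- the measure for `1, ζ(3)` -/
theorem meas : ∃ c : ℝ, 0 < c ∧ Pool.Agent.W472.AC.Meas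
    (Fin.cons 1 fun _ : Fin 1 => zeta3 : Fin (1 + 1) → ℝ) (368 / 100) c := by
  obtain ⟨c, hc, h⟩ := Pool.Agent.TH817.Z3.Z_pre Pool.Agent.TH250.Z3.AM
  have h1 := Pool.Agent.TH647.NR.meas_of_exp (∑' n : ℕ, 1 / ((n : ℝ) + 1) ^ 3) (468 / 100) (by norm_num) c hc
    (fun p q hq => h p q hq)
  refine ⟨min c 1, by positivity, ?_⟩
  have e : (Fin.cons 1 fun _ : Fin 1 => zeta3 : Fin (1 + 1) → ℝ) = ![1, ∑' n : ℕ, 1 / ((n : ℝ) + 1) ^ 3] := by
    funext i
    fin_cases i <;> rfl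
  rw [e]
  convert h1 using 1
  norm_num

theorem part1 (r K : ℕ) (A : ℝ) (hA : 1 ≤ A) : ∃ κ : ℝ, 0 < κ ∧ ∃ N₀ : ℕ, ∀ N : ℕ, N₀ ≤ N → ∀ t : Fin r → ℝ,
    ∃ (u : ℚ) (w : Fin r → ℚ), (u, w) ≠ 0 ∧ ∀ (b : ℤ) (e : Fin r → ℤ), |(b : ℝ)| ≤ (N : ℝ) ^ κ →
      (∀ j, |(e j : ℝ)| ≤ (N : ℝ) ^ κ) → u * b + ∑ j, w j * e j ≠ 0 →
      ∀ M : ℕ, N ≤ M → (M : ℝ) ≤ (N : ℝ) ^ A → Good κ K M (b * zeta3 + ∑ j, (e j : ℝ) * t j) := by
  obtain ⟨c, hc, hm⟩ := meas
  obtain ⟨c', hc', h'⟩ := Pool.Agent.Q29.Eqd.hm_of_meas r (fun _ : Fin 1 => zeta3) (368 / 100) c hc hm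
  obtain ⟨κ, hκ, h⟩ := Pool.Agent.Q29.Eqd.good_eq (368 / 100 * ((r : ℝ) + 1) + r) A (by positivity) hA K
  obtain ⟨N₀, hN₀⟩ := h (fun _ : Fin 1 => zeta3) c' le_rfl hc' h'
  refine ⟨κ, hκ, N₀, fun N hN t => ?_⟩
  obtain ⟨u, w, huw, h1⟩ := hN₀ N hN t
  refine ⟨u 0, w, ?_, fun b e hb he hne M hNM hMA => ?_⟩
  · intro h0
    apply huw
    rw [Prod.ext_iff] at h0 ⊢
    refine ⟨?_, h0.2⟩
    funext j
    rw [Subsingleton.elim j 0]
    exact h0.1
  · rw [good_iff]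
    have h2 := h1 (fun _ => b) e (fun _ => hb) he (by
      rw [Fin.sum_univ_one]
      exact hne) M hNM hMA
    rw [Fin.sum_univ_one] at h2
    exact h2

/-- the value of a polynomial of degree at most `m + 1` -/
theorem aeval_split (m : ℕ) (z : ℝ) (P : Polynomial ℤ) (h : P.natDegree ≤ m + 1) :
    Polynomial.aeval z P = (P.coeff 0 : ℝ) + ((P.coeff 1 : ℝ) * z +
      ∑ j : Fin m, (P.coeff ((j : ℕ) + 2) : ℝ) * z ^ ((j : ℕ) + 2)) := by
  have h1 : Polynomial.aeval z P = ∑ i ∈ Finset.range (m + 2), (P.coeff i : ℝ) * z ^ i := by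
    rw [Polynomial.aeval_eq_sum_range' (show P.natDegree < m + 2 by omega)]
    exact Finset.sum_congr rfl fun i _ => by rw [zsmul_eq_mul]
  rw [h1, Finset.sum_range_succ', Finset.sum_range_succ', Finset.sum_range]
  have h2 : ∑ j : Fin m, (P.coeff ((j : ℕ) + 2) : ℝ) * z ^ ((j : ℕ) + 2) =
      ∑ j : Fin m, (P.coeff ((j : ℕ) + 1 + 1) : ℝ) * z ^ ((j : ℕ) + 1 + 1) := rfl
  rw [h2, pow_zero, mul_one, zero_add, pow_one]
  ring

theorem part2 (d K : ℕ) (A : ℝ) (hd : 1 ≤ d) (hA : 1 ≤ A) : ∃ κ : ℝ, 0 < κ ∧ ∃ N₀ : ℕ, ∀ N : ℕ, N₀ ≤ N →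
    ∃ u : Fin d → ℚ, u ≠ 0 ∧ ∀ P : ℤ[X], P.natDegree ≤ d → (∀ n, |(P.coeff n : ℝ)| ≤ (N : ℝ) ^ κ) →
      ∑ j, u j * P.coeff ((j : ℕ) + 1) ≠ 0 →
      ∀ M : ℕ, N ≤ M → (M : ℝ) ≤ (N : ℝ) ^ A → Good κ K M (aeval zeta3 P) := by
  obtain ⟨m, rfl⟩ : ∃ m, d = m + 1 := ⟨d - 1, by omega⟩
  obtain ⟨κ, hκ, N₀, h⟩ := part1 m K A hA
  refine ⟨κ, hκ, N₀, fun N hN => ?_⟩
  obtain ⟨u, w, huw, h1⟩ := h N hN (fun j => zeta3 ^ ((j : ℕ) + 2))
  refine ⟨Fin.cons u w, ?_, fun P hdeg hcoe hne M hNM hMA => ?_⟩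
  · intro h0
    apply huw
    rw [Prod.ext_iff]
    constructor
    · have := congrFun h0 0
      rw [Fin.cons_zero] at this
      exact this
    · funext j
      have := congrFun h0 j.succ
      rw [Fin.cons_succ] at this
      exact this
  · rw [aeval_split m zeta3 P hdeg]
    apply good_add
    apply h1 (P.coeff 1) (fun j => P.coeff ((j : ℕ) + 2)) (hcoe 1) (fun j => hcoe _) _ M hNM hMA
    rw [Fin.sum_univ_succ] at hne
    simp only [Fin.cons_zero, Fin.cons_succ, Fin.val_zero, Fin.val_succ, zero_add] at hne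
    exact hne

/-- **Uniform distribution of the multiples of the values of polynomials at `ζ(3)`.** -/
theorem result :
    (∀ (r K : ℕ) (A : ℝ), 1 ≤ A → ∃ κ : ℝ, 0 < κ ∧ ∃ N₀ : ℕ, ∀ N : ℕ, N₀ ≤ N → ∀ t : Fin r → ℝ,
      ∃ (u : ℚ) (w : Fin r → ℚ), (u, w) ≠ 0 ∧ ∀ (b : ℤ) (e : Fin r → ℤ), |(b : ℝ)| ≤ (N : ℝ) ^ κ →
        (∀ j, |(e j : ℝ)| ≤ (N : ℝ) ^ κ) → u * b + ∑ j, w j * e j ≠ 0 →
        ∀ M : ℕ, N ≤ M → (M : ℝ) ≤ (N : ℝ) ^ A → Good κ K M (b * zeta3 + ∑ j, (e j : ℝ) * t j)) ∧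
    (∀ (d K : ℕ) (A : ℝ), 1 ≤ d → 1 ≤ A → ∃ κ : ℝ, 0 < κ ∧ ∃ N₀ : ℕ, ∀ N : ℕ, N₀ ≤ N →
      ∃ u : Fin d → ℚ, u ≠ 0 ∧ ∀ P : ℤ[X], P.natDegree ≤ d → (∀ n, |(P.coeff n : ℝ)| ≤ (N : ℝ) ^ κ) →
        ∑ j, u j * P.coeff ((j : ℕ) + 1) ≠ 0 →
        ∀ M : ℕ, N ≤ M → (M : ℝ) ≤ (N : ℝ) ^ A → Good κ K M (aeval zeta3 P)) := by
  exact ⟨fun r K A hA => part1 r K A hA, fun d K A hd hA => part2 d K A hd hA⟩

end Pool.Agent.Results.MP_48b3e2_nt.MultiplesOfPolynomials
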